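import Pool.Agent.H.MP_2d2dfa_co.Tab

set_option autoImplicit false

namespace Pool.Agent.H.MP_2d2dfa_co

theorem lp8 (a : Fin 3 → Fin 3 → ℝ) (v : Fin 3 → ℝ) (S : ℝ)
    (h : ∀ k s t, ineq (nT 8 k) (xt 8 k s t) a v)
    (hs : ∀ c d, a c d + a d c ≤ S ∧ -S ≤ a c d + a d c) : concl a v S := by
  have h0 := ineq_of (h 0 true true) (-6) 9 (-2) 209 (-86) (-117) (by decide +kernel)
  have h1 := ineq_of (h 0 true false) (-6) 9 (-2) 195 (-98) (-129) (by decide +kernel)
  have h2 := ineq_of (h 0 false true) (-6) 9 (-2) 197 (-90) (-99) (by decide +kernel)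
  have h3 := ineq_of (h 0 false false) (-6) 9 (-2) 183 (-102) (-111) (by decide +kernel)
  have h4 := ineq_of (h 1 true true) 6 2 9 209 (-117) 86 (by decide +kernel)
  have h5 := ineq_of (h 1 true false) 6 2 9 195 (-129) 98 (by decide +kernel)
  have h6 := ineq_of (h 1 false true) 6 2 9 197 (-99) 90 (by decide +kernel)
  have h7 := ineq_of (h 1 false false) 6 2 9 183 (-111) 102 (by decide +kernel)
  have h8 := ineq_of (h 2 true true) (-9) 6 2 86 (-209) 117 (by decide +kernel)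
  have h9 := ineq_of (h 2 true false) (-9) 6 2 98 (-195) 129 (by decide +kernel)
  have h10 := ineq_of (h 2 false true) (-9) 6 2 90 (-197) 99 (by decide +kernel)
  have h11 := ineq_of (h 2 false false) (-9) 6 2 102 (-183) 111 (by decide +kernel)
  have h12 := ineq_of (h 3 true true) (-2) (-6) (-9) 117 (-209) (-86) (by decide +kernel)
  have h13 := ineq_of (h 3 true false) (-2) (-6) (-9) 129 (-195) (-98) (by decide +kernel)
  have h14 := ineq_of (h 3 false true) (-2) (-6) (-9) 99 (-197) (-90) (by decide +kernel)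
  have h15 := ineq_of (h 3 false false) (-2) (-6) (-9) 111 (-183) (-102) (by decide +kernel)
  push_cast at h0 h1 h2 h3 h4 h5 h6 h7 h8 h9 h10 h11 h12 h13 h14 h15
  obtain ⟨p00, q00⟩ := hs 0 0
  obtain ⟨p01, q01⟩ := hs 0 1
  obtain ⟨p02, q02⟩ := hs 0 2
  obtain ⟨p11, q11⟩ := hs 1 1
  obtain ⟨p12, q12⟩ := hs 1 2
  obtain ⟨p22, q22⟩ := hs 2 2
  refine ⟨?_, ?_, ?_, ?_, ?_, ?_, ?_, ?_, ?_, ?_, ?_, ?_⟩ <;> linarith

theorem lp9 (a : Fin 3 → Fin 3 → ℝ) (v : Fin 3 → ℝ) (S : ℝ)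
    (h : ∀ k s t, ineq (nT 9 k) (xt 9 k s t) a v)
    (hs : ∀ c d, a c d + a d c ≤ S ∧ -S ≤ a c d + a d c) : concl a v S := by
  have h0 := ineq_of (h 0 true true) 6 (-9) 2 209 (-86) (-117) (by decide +kernel)
  have h1 := ineq_of (h 0 true false) 6 (-9) 2 195 (-98) (-129) (by decide +kernel)
  have h2 := ineq_of (h 0 false true) 6 (-9) 2 197 (-90) (-99) (by decide +kernel)
  have h3 := ineq_of (h 0 false false) 6 (-9) 2 183 (-102) (-111) (by decide +kernel)
  have h4 := ineq_of (h 1 true true) (-6) 2 9 209 117 (-86) (by decide +kernel)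
  have h5 := ineq_of (h 1 true false) (-6) 2 9 195 129 (-98) (by decide +kernel)
  have h6 := ineq_of (h 1 false true) (-6) 2 9 197 99 (-90) (by decide +kernel)
  have h7 := ineq_of (h 1 false false) (-6) 2 9 183 111 (-102) (by decide +kernel)
  have h8 := ineq_of (h 2 true true) (-9) (-2) 6 86 (-117) (-209) (by decide +kernel)
  have h9 := ineq_of (h 2 true false) (-9) (-2) 6 98 (-129) (-195) (by decide +kernel)
  have h10 := ineq_of (h 2 false true) (-9) (-2) 6 90 (-99) (-197) (by decide +kernel)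
  have h11 := ineq_of (h 2 false false) (-9) (-2) 6 102 (-111) (-183) (by decide +kernel)
  have h12 := ineq_of (h 3 true true) (-2) 9 (-6) 117 86 (-209) (by decide +kernel)
  have h13 := ineq_of (h 3 true false) (-2) 9 (-6) 129 98 (-195) (by decide +kernel)
  have h14 := ineq_of (h 3 false true) (-2) 9 (-6) 99 90 (-197) (by decide +kernel)
  have h15 := ineq_of (h 3 false false) (-2) 9 (-6) 111 102 (-183) (by decide +kernel)
  push_cast at h0 h1 h2 h3 h4 h5 h6 h7 h8 h9 h10 h11 h12 h13 h14 h15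
  obtain ⟨p00, q00⟩ := hs 0 0
  obtain ⟨p01, q01⟩ := hs 0 1
  obtain ⟨p02, q02⟩ := hs 0 2
  obtain ⟨p11, q11⟩ := hs 1 1
  obtain ⟨p12, q12⟩ := hs 1 2
  obtain ⟨p22, q22⟩ := hs 2 2
  refine ⟨?_, ?_, ?_, ?_, ?_, ?_, ?_, ?_, ?_, ?_, ?_, ?_⟩ <;> linarith

theorem lp10 (a : Fin 3 → Fin 3 → ℝ) (v : Fin 3 → ℝ) (S : ℝ)
    (h : ∀ k s t, ineq (nT 10 k) (xt 10 k s t) a v)
    (hs : ∀ c d, a c d + a d c ≤ S ∧ -S ≤ a c d + a d c) : concl a v S := by
  have h0 := ineq_of (h 0 true true) 6 9 (-2) 209 86 117 (by decide +kernel)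
  have h1 := ineq_of (h 0 true false) 6 9 (-2) 195 98 129 (by decide +kernel)
  have h2 := ineq_of (h 0 false true) 6 9 (-2) 197 90 99 (by decide +kernel)
  have h3 := ineq_of (h 0 false false) 6 9 (-2) 183 102 111 (by decide +kernel)
  have h4 := ineq_of (h 1 true true) (-6) (-2) (-9) 209 (-117) 86 (by decide +kernel)
  have h5 := ineq_of (h 1 true false) (-6) (-2) (-9) 195 (-129) 98 (by decide +kernel)
  have h6 := ineq_of (h 1 false true) (-6) (-2) (-9) 197 (-99) 90 (by decide +kernel)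
  have h7 := ineq_of (h 1 false false) (-6) (-2) (-9) 183 (-111) 102 (by decide +kernel)
  have h8 := ineq_of (h 2 true true) (-9) 2 (-6) 86 117 209 (by decide +kernel)
  have h9 := ineq_of (h 2 true false) (-9) 2 (-6) 98 129 195 (by decide +kernel)
  have h10 := ineq_of (h 2 false true) (-9) 2 (-6) 90 99 197 (by decide +kernel)
  have h11 := ineq_of (h 2 false false) (-9) 2 (-6) 102 111 183 (by decide +kernel)
  have h12 := ineq_of (h 3 true true) (-2) (-9) 6 117 (-86) 209 (by decide +kernel)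
  have h13 := ineq_of (h 3 true false) (-2) (-9) 6 129 (-98) 195 (by decide +kernel)
  have h14 := ineq_of (h 3 false true) (-2) (-9) 6 99 (-90) 197 (by decide +kernel)
  have h15 := ineq_of (h 3 false false) (-2) (-9) 6 111 (-102) 183 (by decide +kernel)
  push_cast at h0 h1 h2 h3 h4 h5 h6 h7 h8 h9 h10 h11 h12 h13 h14 h15
  obtain ⟨p00, q00⟩ := hs 0 0
  obtain ⟨p01, q01⟩ := hs 0 1
  obtain ⟨p02, q02⟩ := hs 0 2
  obtain ⟨p11, q11⟩ := hs 1 1
  obtain ⟨p12, q12⟩ := hs 1 2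
  obtain ⟨p22, q22⟩ := hs 2 2
  refine ⟨?_, ?_, ?_, ?_, ?_, ?_, ?_, ?_, ?_, ?_, ?_, ?_⟩ <;> linarith

theorem lp11 (a : Fin 3 → Fin 3 → ℝ) (v : Fin 3 → ℝ) (S : ℝ)
    (h : ∀ k s t, ineq (nT 11 k) (xt 11 k s t) a v)
    (hs : ∀ c d, a c d + a d c ≤ S ∧ -S ≤ a c d + a d c) : concl a v S := by
  have h0 := ineq_of (h 0 true true) (-6) (-9) 2 209 86 117 (by decide +kernel)
  have h1 := ineq_of (h 0 true false) (-6) (-9) 2 195 98 129 (by decide +kernel)
  have h2 := ineq_of (h 0 false true) (-6) (-9) 2 197 90 99 (by decide +kernel)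
  have h3 := ineq_of (h 0 false false) (-6) (-9) 2 183 102 111 (by decide +kernel)
  have h4 := ineq_of (h 1 true true) 6 (-2) (-9) 209 117 (-86) (by decide +kernel)
  have h5 := ineq_of (h 1 true false) 6 (-2) (-9) 195 129 (-98) (by decide +kernel)
  have h6 := ineq_of (h 1 false true) 6 (-2) (-9) 197 99 (-90) (by decide +kernel)
  have h7 := ineq_of (h 1 false false) 6 (-2) (-9) 183 111 (-102) (by decide +kernel)
  have h8 := ineq_of (h 2 true true) (-9) (-6) (-2) 86 209 (-117) (by decide +kernel)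
  have h9 := ineq_of (h 2 true false) (-9) (-6) (-2) 98 195 (-129) (by decide +kernel)
  have h10 := ineq_of (h 2 false true) (-9) (-6) (-2) 90 197 (-99) (by decide +kernel)
  have h11 := ineq_of (h 2 false false) (-9) (-6) (-2) 102 183 (-111) (by decide +kernel)
  have h12 := ineq_of (h 3 true true) (-2) 6 9 117 209 86 (by decide +kernel)
  have h13 := ineq_of (h 3 true false) (-2) 6 9 129 195 98 (by decide +kernel)
  have h14 := ineq_of (h 3 false true) (-2) 6 9 99 197 90 (by decide +kernel)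
  have h15 := ineq_of (h 3 false false) (-2) 6 9 111 183 102 (by decide +kernel)
  push_cast at h0 h1 h2 h3 h4 h5 h6 h7 h8 h9 h10 h11 h12 h13 h14 h15
  obtain ⟨p00, q00⟩ := hs 0 0
  obtain ⟨p01, q01⟩ := hs 0 1
  obtain ⟨p02, q02⟩ := hs 0 2
  obtain ⟨p11, q11⟩ := hs 1 1
  obtain ⟨p12, q12⟩ := hs 1 2
  obtain ⟨p22, q22⟩ := hs 2 2
  refine ⟨?_, ?_, ?_, ?_, ?_, ?_, ?_, ?_, ?_, ?_, ?_, ?_⟩ <;> linarith

end Pool.Agent.H.MP_2d2dfa_co
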