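import Mathlib

set_option autoImplicit false

namespace Pool.Agent.H.MP_2d2dfa_co

def cL : List (List ℤ) :=
  [[-196, -94, 114], [-196, -114, -94], [-94, -196, -114], [-114, -196, 94],
   [-196, 94, -114], [-196, -114, -94], [-94, 114, -196], [-114, -94, -196],
   [-196, -94, 114], [-196, 114, 94], [-94, -114, 196], [-114, 94, 196],
   [-196, 94, -114], [-196, 114, 94], [-94, 196, 114], [-114, 196, -94],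
   [-94, -196, -114], [94, -114, -196], [114, -196, -94], [-114, -94, -196],
   [94, -196, 114], [-94, -114, 196], [-114, -196, 94], [114, -94, 196],
   [94, 196, -114], [-94, 114, -196], [-114, 196, -94], [114, 94, -196],
   [-94, 196, 114], [94, 114, 196], [114, 196, 94], [-114, 94, 196],
   [196, -94, -114], [196, -114, 94], [94, -196, 114], [114, -196, -94],
   [196, -94, -114], [196, 114, -94], [94, -114, -196], [114, 94, -196],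
   [196, 94, 114], [196, -114, 94], [94, 114, 196], [114, -94, 196],
   [196, 94, 114], [196, 114, -94], [94, 196, -114], [114, 196, 94]]

def nL : List (List ℤ) :=
  [[6, 9, 2], [-6, 2, -9], [9, 6, -2], [2, -6, 9],
   [-6, 9, 2], [6, -2, 9], [9, 2, 6], [2, -9, -6],
   [-6, -9, -2], [6, 2, -9], [9, -2, -6], [2, 9, 6],
   [6, -9, -2], [-6, -2, 9], [9, -6, 2], [2, 6, -9],
   [-9, -6, 2], [9, 2, -6], [2, 6, 9], [-2, 9, 6],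
   [9, -6, -2], [-9, 2, 6], [-2, 6, -9], [2, 9, -6],
   [9, 6, 2], [-9, -2, -6], [-2, -6, 9], [2, -9, 6],
   [-9, 6, -2], [9, -2, 6], [2, -6, -9], [-2, -9, -6],
   [-6, 9, -2], [6, 2, 9], [-9, 6, 2], [-2, -6, -9],
   [6, -9, 2], [-6, 2, 9], [-9, -2, 6], [-2, 9, -6],
   [6, 9, -2], [-6, -2, -9], [-9, 2, -6], [-2, -9, 6],
   [-6, -9, 2], [6, -2, -9], [-9, -6, -2], [-2, 6, 9]]

def uL : List (List ℤ) :=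
  [[-6, 2, 9], [-6, -9, 2], [2, -6, -9], [-9, -6, -2],
   [-6, -2, -9], [-6, -9, 2], [2, 9, -6], [-9, 2, -6],
   [-6, 2, 9], [-6, 9, -2], [2, -9, 6], [-9, -2, 6],
   [-6, -2, -9], [-6, 9, -2], [2, 6, 9], [-9, 6, 2],
   [2, -6, -9], [-2, -9, -6], [9, -6, 2], [-9, 2, -6],
   [-2, -6, 9], [2, -9, 6], [-9, -6, -2], [9, 2, 6],
   [-2, 6, -9], [2, 9, -6], [-9, 6, 2], [9, -2, -6],
   [2, 6, 9], [-2, 9, 6], [9, 6, -2], [-9, -2, 6],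
   [6, 2, -9], [6, -9, -2], [-2, -6, 9], [9, -6, 2],
   [6, 2, -9], [6, 9, 2], [-2, -9, -6], [9, -2, -6],
   [6, -2, 9], [6, -9, -2], [-2, 9, 6], [9, 2, 6],
   [6, -2, 9], [6, 9, 2], [-2, 6, -9], [9, 6, -2]]

def wL : List (List ℤ) :=
  [[-7, 6, -6], [-7, 6, 6], [6, -7, 6], [6, -7, -6],
   [-7, -6, 6], [-7, 6, 6], [6, -6, -7], [6, 6, -7],
   [-7, 6, -6], [-7, -6, -6], [6, 6, 7], [6, -6, 7],
   [-7, -6, 6], [-7, -6, -6], [6, 7, -6], [6, 7, 6],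
   [6, -7, 6], [-6, 6, -7], [-6, -7, 6], [6, 6, -7],
   [-6, -7, -6], [6, 6, 7], [6, -7, -6], [-6, 6, 7],
   [-6, 7, 6], [6, -6, -7], [6, 7, 6], [-6, -6, -7],
   [6, 7, -6], [-6, -6, 7], [-6, 7, -6], [6, -6, 7],
   [7, 6, 6], [7, 6, -6], [-6, -7, -6], [-6, -7, 6],
   [7, 6, 6], [7, -6, 6], [-6, 6, -7], [-6, -6, -7],
   [7, -6, -6], [7, 6, -6], [-6, -6, 7], [-6, 6, 7],
   [7, -6, -6], [7, -6, 6], [-6, 7, 6], [-6, 7, -6]]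

def sL : List (List ℤ) :=
  [[0, 0, 0, 0, 0], [-6, 2, -9, 11, 1794], [6, 9, 2, 11, -1794], [0, 1, 0, 1, -75],
   [9, 6, -2, 11, -1794], [2, -6, 9, 11, 1794], [0, 1, 0, 1, -75], [0, 1, 0, 1, -75],
   [1, 0, 0, 1, -75], [1, 0, 0, 1, -75], [1, 0, 0, 1, -75], [0, 1, 0, 1, -75],
   [6, -2, 9, 11, -1794], [0, 0, 0, 0, 0], [0, 0, 1, 1, -75], [-6, 9, 2, 11, 1794],
   [2, -9, -6, 11, 1794], [0, 0, 1, 1, -75], [9, 2, 6, 11, -1794], [0, 0, 1, 1, -75],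
   [1, 0, 0, 1, -75], [1, 0, 0, 1, -75], [0, 0, 1, 1, -75], [1, 0, 0, 1, -75],
   [-6, -9, -2, 11, 1794], [0, 0, -1, 1, 75], [0, 0, 0, 0, 0], [6, 2, -9, 11, -1794],
   [0, 0, -1, 1, -75], [9, -2, -6, 11, -1794], [0, 0, -1, 1, -75], [2, 9, 6, 11, 1794],
   [1, 0, 0, 1, -75], [0, 0, -1, 1, -75], [1, 0, 0, 1, -75], [1, 0, 0, 1, -75],
   [0, -1, 0, 1, 75], [6, -9, -2, 11, -1794], [-6, -2, 9, 11, 1794], [0, 0, 0, 0, 0],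
   [0, -1, 0, 1, -75], [0, -1, 0, 1, -75], [2, 6, -9, 11, 1794], [9, -6, 2, 11, -1794],
   [0, -1, 0, 1, -75], [1, 0, 0, 1, -75], [1, 0, 0, 1, -75], [1, 0, 0, 1, -75],
   [-9, -6, 2, 11, 1794], [-2, 9, 6, 11, -1794], [0, 0, 1, 1, 75], [0, 1, 0, 1, 75],
   [0, 0, 0, 0, 0], [0, 0, 1, 1, -75], [0, 1, 0, 1, -75], [0, 0, 1, 1, -75],
   [2, 6, 9, 11, -1794], [9, 2, -6, 11, 1794], [0, 0, 1, 1, -75], [0, 1, 0, 1, -75],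
   [-2, 6, -9, 11, -1794], [0, 0, -1, 1, 75], [-9, 2, 6, 11, 1794], [0, 1, 0, 1, 75],
   [0, 0, -1, 1, 75], [0, 0, 0, 0, 0], [0, 0, -1, 1, -75], [0, 1, 0, 1, -75],
   [9, -6, -2, 11, 1794], [0, 0, -1, 1, -75], [2, 9, -6, 11, -1794], [0, 1, 0, 1, -75],
   [0, -1, 0, 1, 75], [-9, -2, -6, 11, 1794], [0, 0, 1, 1, 75], [-2, -6, 9, 11, -1794],
   [0, -1, 0, 1, 75], [0, 0, 1, 1, 75], [0, 0, 0, 0, 0], [0, 0, 1, 1, -75],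
   [0, -1, 0, 1, -75], [2, -9, 6, 11, -1794], [0, 0, 1, 1, -75], [9, 6, 2, 11, 1794],
   [0, -1, 0, 1, 75], [0, 0, -1, 1, 75], [-2, -9, -6, 11, -1794], [-9, 6, -2, 11, 1794],
   [0, 0, -1, 1, 75], [0, -1, 0, 1, 75], [0, 0, -1, 1, 75], [0, 0, 0, 0, 0],
   [0, -1, 0, 1, -75], [0, 0, -1, 1, -75], [9, -2, 6, 11, 1794], [2, -6, -9, 11, -1794],
   [-1, 0, 0, 1, 75], [-1, 0, 0, 1, 75], [-1, 0, 0, 1, 75], [0, 1, 0, 1, 75],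
   [-2, -6, -9, 11, 1794], [-9, 6, 2, 11, -1794], [0, 1, 0, 1, 75], [0, 1, 0, 1, 75],
   [0, 0, 0, 0, 0], [-6, 9, -2, 11, -1794], [6, 2, 9, 11, 1794], [0, 1, 0, 1, -75],
   [-1, 0, 0, 1, 75], [-1, 0, 0, 1, 75], [0, 0, 1, 1, 75], [-1, 0, 0, 1, 75],
   [-9, -2, 6, 11, -1794], [0, 0, 1, 1, 75], [-2, 9, -6, 11, 1794], [0, 0, 1, 1, 75],
   [6, -9, 2, 11, 1794], [0, 0, 0, 0, 0], [0, 0, 1, 1, -75], [-6, 2, 9, 11, -1794],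
   [-1, 0, 0, 1, 75], [0, 0, -1, 1, 75], [-1, 0, 0, 1, 75], [-1, 0, 0, 1, 75],
   [0, 0, -1, 1, 75], [-2, -9, 6, 11, 1794], [0, 0, -1, 1, 75], [-9, 2, -6, 11, -1794],
   [-6, -2, -9, 11, -1794], [0, 0, -1, 1, 75], [0, 0, 0, 0, 0], [6, 9, -2, 11, 1794],
   [0, -1, 0, 1, 75], [-1, 0, 0, 1, 75], [-1, 0, 0, 1, 75], [-1, 0, 0, 1, 75],
   [0, -1, 0, 1, 75], [0, -1, 0, 1, 75], [-9, -6, -2, 11, -1794], [-2, 6, 9, 11, 1794],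
   [0, -1, 0, 1, 75], [6, -2, -9, 11, 1794], [-6, -9, 2, 11, -1794], [0, 0, 0, 0, 0]]

def cT (i : Fin 12) (k : Fin 4) (d : Fin 3) : ℤ := (cL.getD (4 * i.val + k.val) []).getD d.val 0

def nT (i : Fin 12) (k : Fin 4) (d : Fin 3) : ℤ := (nL.getD (4 * i.val + k.val) []).getD d.val 0

def uT (i : Fin 12) (k : Fin 4) (d : Fin 3) : ℤ := (uL.getD (4 * i.val + k.val) []).getD d.val 0

def wT (i : Fin 12) (k : Fin 4) (d : Fin 3) : ℤ := (wL.getD (4 * i.val + k.val) []).getD d.val 0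

def sT (i j : Fin 12) (d : ℕ) : ℤ := (sL.getD (12 * i.val + j.val) []).getD d 0

def nb (i : Fin 12) (k : Fin 4) : Fin 12 :=
  Fin.ofNat 12 (([2, 1, 4, 5, 3, 0, 6, 4, 0, 3, 5, 7, 1, 2, 7, 6, 0, 9, 8, 1, 8, 2, 0, 10, 11, 1, 3, 9, 3, 10, 11, 2, 9, 10, 5, 4, 8, 11, 4, 6, 11, 8, 7, 5, 10, 9, 6, 7] : List ℕ).getD (4 * i.val + k.val) 0)

def kk (i : Fin 12) (k : Fin 4) : Fin 4 :=
  Fin.ofNat 4 (([0, 1, 0, 2, 0, 1, 1, 3, 0, 1, 1, 3, 0, 1, 0, 2, 2, 2, 3, 3, 2, 2, 3, 3, 2, 2, 3, 3, 2, 2, 3, 3, 0, 1, 0, 2, 0, 1, 1, 3, 0, 1, 1, 3, 0, 1, 0, 2] : List ℕ).getD (4 * i.val + k.val) 0)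

def sg (b : Bool) : ℤ := if b then 1 else -1

def vt (i : Fin 12) (k : Fin 4) (s t : Bool) (d : Fin 3) : ℤ :=
  cT i k d - nT i k d + 2 * sg s * uT i k d + 2 * sg t * wT i k d

def xt (i : Fin 12) (k : Fin 4) (s t : Bool) (d : Fin 3) : ℤ :=
  cT i k d + sg s * uT i k d + sg t * wT i k d

theorem nb_ne : ∀ i k, nb i k ≠ i := by decide +kernel

theorem nb_spec : ∀ i k d, cT (nb i k) (kk i k) d = cT i k d ∧ nT (nb i k) (kk i k) d = - nT i k d ∧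
    uT (nb i k) (kk i k) d = uT i k d ∧ wT (nb i k) (kk i k) d = wT i k d := by decide +kernel

theorem frame : ∀ i k d e, nT i k d * nT i k e + uT i k d * uT i k e + wT i k d * wT i k e
    = if d = e then 121 else 0 := by decide +kernel

theorem norms : ∀ i k, nT i k 0 ^ 2 + nT i k 1 ^ 2 + nT i k 2 ^ 2 ≤ 11 ^ 2 ∧
    uT i k 0 ^ 2 + uT i k 1 ^ 2 + uT i k 2 ^ 2 ≤ 11 ^ 2 ∧
    wT i k 0 ^ 2 + wT i k 1 ^ 2 + wT i k 2 ^ 2 ≤ 11 ^ 2 := by decide +kernel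

theorem sep0 : ∀ i j, i ≠ j → 0 ≤ sT i j 3 ∧ sT i j 0 ^ 2 + sT i j 1 ^ 2 + sT i j 2 ^ 2 ≤ sT i j 3 ^ 2 ∧
    0 < sT i j 0 ^ 2 + sT i j 1 ^ 2 + sT i j 2 ^ 2 := by decide +kernel

theorem sep1 : ∀ i j, i ≠ j → ∀ k s t,
    sT i j 0 * vt i k s t 0 + sT i j 1 * vt i k s t 1 + sT i j 2 * vt i k s t 2 + 11 * sT i j 3
      ≤ sT i j 4 ∧
    sT i j 4 + 11 * sT i j 3
      ≤ sT i j 0 * vt j k s t 0 + sT i j 1 * vt j k s t 1 + sT i j 2 * vt j k s t 2 := by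
  decide +kernel

def ineq (n x : Fin 3 → ℤ) (a : Fin 3 → Fin 3 → ℝ) (v : Fin 3 → ℝ) : Prop :=
  (n 0 : ℝ) * (a 0 0 * (x 0 : ℝ) + a 0 1 * (x 1 : ℝ) + a 0 2 * (x 2 : ℝ) + v 0)
  + (n 1 : ℝ) * (a 1 0 * (x 0 : ℝ) + a 1 1 * (x 1 : ℝ) + a 1 2 * (x 2 : ℝ) + v 1)
  + (n 2 : ℝ) * (a 2 0 * (x 0 : ℝ) + a 2 1 * (x 1 : ℝ) + a 2 2 * (x 2 : ℝ) + v 2) ≤ 0

theorem ineq_of {n x : Fin 3 → ℤ} {a : Fin 3 → Fin 3 → ℝ} {v : Fin 3 → ℝ} (h : ineq n x a v)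
    (n0 n1 n2 x0 x1 x2 : ℤ)
    (e : n 0 = n0 ∧ n 1 = n1 ∧ n 2 = n2 ∧ x 0 = x0 ∧ x 1 = x1 ∧ x 2 = x2) :
    (n0 : ℝ) * (a 0 0 * (x0 : ℝ) + a 0 1 * (x1 : ℝ) + a 0 2 * (x2 : ℝ) + v 0)
  + (n1 : ℝ) * (a 1 0 * (x0 : ℝ) + a 1 1 * (x1 : ℝ) + a 1 2 * (x2 : ℝ) + v 1)
  + (n2 : ℝ) * (a 2 0 * (x0 : ℝ) + a 2 1 * (x1 : ℝ) + a 2 2 * (x2 : ℝ) + v 2) ≤ 0 := by
  obtain ⟨rfl, rfl, rfl, rfl, rfl, rfl⟩ := e
  exact h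

def concl (a : Fin 3 → Fin 3 → ℝ) (v : Fin 3 → ℝ) (S : ℝ) : Prop :=
  a 0 1 ≤ 20 * S ∧ a 0 2 ≤ 20 * S ∧ a 1 0 ≤ 20 * S ∧ a 1 2 ≤ 20 * S ∧ a 2 0 ≤ 20 * S ∧
  a 2 1 ≤ 20 * S ∧ v 0 ≤ 9000 * S ∧ v 1 ≤ 9000 * S ∧ v 2 ≤ 9000 * S ∧
  -v 0 ≤ 9000 * S ∧ -v 1 ≤ 9000 * S ∧ -v 2 ≤ 9000 * S

end Pool.Agent.H.MP_2d2dfa_co
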